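import Pool.Agent.Results.MP_9d7cd1_nt.AbscissaWindows

/-!
# Hall's conjecture for points whose abscissa is near the powers of almost every real number

Let `ν n / log n → ∞`, for example `ν n = n`.  For almost every real `u > 1`, all `θ < 1 / 6` and all but finitely many
`n` EVERY integral solution `(x, y)`, coprime or not, of every equation `y ^ 2 = x ^ 3 - k`, `k ≠ 0`, with
`||x| - u ^ (ν n)| ≤ u ^ (θ ν n)` satisfies `|x| ^ 3 ≤ 32 ^ 3 |k| ^ 3` and `|y| ^ 2 ≤ (32 ^ 3 + 1) |k| ^ 3`, in place of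
the exponent `6 + ε` of Hall's conjecture.
-/

set_option autoImplicit false

open Filter Topology MeasureTheory

namespace Pool.Agent.Results.MP_ca6ed4_nt.AbscissaWindows

open Pool.Agent.V11001.KM
open Pool.Agent.Results.MP_9d7cd1_nt.AbscissaWindows (ExpLe HallOn)

/-- the integral solutions of `y ^ 2 = x ^ 3 - k`, `k ≠ 0`, with `|x|` in the set `W` and `|x| ≥ x₀` satisfy
`|x| ^ 3 ≤ 32 ^ 3 |k| ^ 3` and `|y| ^ 2 ≤ (32 ^ 3 + 1) |k| ^ 3` -/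
def Bounds (W : Set ℝ) (x₀ : ℝ) : Prop :=
  ∀ k x y : ℤ, k ≠ 0 → y ^ 2 = x ^ 3 - k → x₀ ≤ |(x : ℝ)| → |(x : ℝ)| ∈ W →
    |x| ^ 3 ≤ 32 ^ 3 * |k| ^ 3 ∧ |y| ^ 2 ≤ (32 ^ 3 + 1) * |k| ^ 3

lemma bounds_of {W : Set ℝ} {x₀ : ℝ} (h : HallOn W x₀) : Bounds W x₀ := by
  intro k x y hk hxy hx hW
  have h1 := h (-k) x y (neg_ne_zero.2 hk) (by rw [hxy]; ring) hx hW
  rw [abs_neg] at h1
  have h2 : |x| ^ 3 ≤ (32 * |k|) ^ 3 := pow_le_pow_left₀ (abs_nonneg x) h1.le 3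
  have h3 : (32 * |k|) ^ 3 = 32 ^ 3 * |k| ^ 3 := by ring
  rw [h3] at h2
  refine ⟨h2, ?_⟩
  have h4 : |k| ≤ |k| ^ 3 := le_self_pow₀ (Int.one_le_abs hk) (by norm_num)
  have h5 : x ^ 3 ≤ |x| ^ 3 := by
    rw [← abs_pow]
    exact le_abs_self _
  have h6 : -k ≤ |k| := neg_le_abs k
  rw [sq_abs, hxy]
  linarith

/-- **Theorem.** (1) Let `ν n / log n → ∞` and let `B` be a countable set of real numbers. For every `θ < 1` there is a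
set `F` of Hausdorff dimension at most `(5 / 6) / (1 - θ)` such that for each `u > 1` outside `F` and each positive `β`
in `B` there is `x₀` such that all the integral solutions of `y ^ 2 = x ^ 3 - k`, `k ≠ 0`, with `|x| ≥ x₀` and
`||x| - β u ^ (ν n)| ≤ u ^ (θ ν n)` for some `n` satisfy `|x| ^ 3 ≤ 32 ^ 3 |k| ^ 3`, `|y| ^ 2 ≤ (32 ^ 3 + 1) |k| ^ 3`.
(2) For almost every real `u > 1` this holds for all `θ < 1 / 6`.
(3) For all sequences `v ≥ 1` of exponent of convergence at most `τ ≥ 0` and all `θ < 1` there is a set `F` of Hausdorff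
dimension at most `(5 / 6 + τ) / (1 - θ)` such that for each `α > 0` outside `F` and all large `n` the same holds for
all the solutions with `||x| - α v_n| ≤ v_n ^ θ`. -/
theorem result :
    (∀ ν : ℕ → ℝ, Fast ν → ∀ B : Set ℝ, B.Countable →
      (∀ θ : ℝ, θ < 1 → ∃ F : Set ℝ, dimH F ≤ ENNReal.ofReal (5 / 6 / (1 - θ)) ∧
        ∀ u : ℝ, 1 < u → u ∉ F → ∀ β ∈ B, 0 < β → ∃ x₀ : ℝ, Bounds {z | Near ν θ β u z} x₀) ∧
      (∀ᵐ u : ℝ, 1 < u → ∀ θ : ℝ, θ < 1 / 6 → ∀ β ∈ B, 0 < β → ∃ x₀ : ℝ, Bounds {z | Near ν θ β u z} x₀)) ∧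
    (∀ (v : ℕ → ℝ) (τ θ : ℝ), (∀ n, 1 ≤ v n) → 0 ≤ τ → ExpLe v τ → θ < 1 →
      ∃ F : Set ℝ, dimH F ≤ ENNReal.ofReal ((5 / 6 + τ) / (1 - θ)) ∧ ∀ α : ℝ, 0 < α → α ∉ F →
        ∃ n₀ : ℕ, ∀ n : ℕ, n₀ ≤ n → Bounds {z | |z - α * v n| ≤ (v n) ^ θ} 0) := by
  obtain ⟨h1, h2, -⟩ := Pool.Agent.Results.MP_9d7cd1_nt.AbscissaWindows.result
  refine ⟨fun ν hν B hB => ⟨fun θ hθ => ?_, ?_⟩, fun v τ θ hv hτ hE hθ => ?_⟩
  · obtain ⟨F, h3, h4⟩ := (h1 ν hν B hB).1 θ hθ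
    refine ⟨F, h3, fun u hu huF β hβ hβ0 => ?_⟩
    obtain ⟨x₀, hx⟩ := h4 u hu huF β hβ hβ0
    exact ⟨x₀, bounds_of hx⟩
  · filter_upwards [(h1 ν hν B hB).2] with u hu hu1 θ hθ β hβ hβ0
    obtain ⟨x₀, hx⟩ := hu hu1 θ hθ β hβ hβ0
    exact ⟨x₀, bounds_of hx⟩
  · obtain ⟨F, h3, h4⟩ := h2 v τ θ hv hτ hE hθ
    refine ⟨F, h3, fun α hα hαF => ?_⟩
    obtain ⟨n₀, hn⟩ := h4 α hα hαF
    exact ⟨n₀, fun n hn1 => bounds_of (hn n hn1)⟩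

end Pool.Agent.Results.MP_ca6ed4_nt.AbscissaWindows
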