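import Pool.Agent.Results.MP_9d7cd1_nt.PointsInResidueClasses
import Pool.Agent.V1172.PW.Eng2

/-!
# Hall's conjecture on the Mordell equation for all points with abscissa or ordinate in shrinking residue classes

Let `p` be a prime number and `σ > 0`. For all `α ∈ ℤ_p` outside of a set of Hausdorff dimension at most `(5/6) / σ` and all
large `T`: EVERY integral solution, coprime or not, of every equation `y² = x³ - k`, `k ≠ 0`, with `|x| ≤ T` and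
`|x - α|_p ≤ T^{-σ}`, that is, with `x` in the residue class of `α` modulo the least `p^f ≥ T^σ`, satisfies
`|x|³ ≤ 32³ |k|³` and `|y|² ≤ (32³ + 1) |k|³`, in place of the exponent `6 + ε` of Hall's conjecture.

For all `β ∈ ℤ_p` outside of a set of Hausdorff dimension at most `(5/9) / σ` the same holds for all solutions with `|y| ≤ T` and
`|y - β|_p ≤ T^{-σ}`.
-/

set_option autoImplicit false

namespace Pool.Agent.Results.MP_ca6ed4_nt.PointsInResidueClasses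

/-- the bounds of Hall's conjecture with the exponent `3` -/
def Bounds (k x y : ℤ) : Prop := |x| ^ 3 ≤ 32 ^ 3 * |k| ^ 3 ∧ |y| ^ 2 ≤ (32 ^ 3 + 1) * |k| ^ 3

/-- copied from `MP_ca6ed4_nt.AbscissaWindows` (helper60) -/
lemma bounds_of {k x y : ℤ} (hk : k ≠ 0) (hxy : y ^ 2 = x ^ 3 - k) (h1 : |x| < 32 * |k|) : Bounds k x y := by
  have h2 : |x| ^ 3 ≤ (32 * |k|) ^ 3 := pow_le_pow_left₀ (abs_nonneg x) h1.le 3
  have h3 : (32 * |k|) ^ 3 = 32 ^ 3 * |k| ^ 3 := by ring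
  rw [h3] at h2
  refine ⟨h2, ?_⟩
  have h4 : |k| ≤ |k| ^ 3 := le_self_pow₀ (Int.one_le_abs hk) (by norm_num)
  have h5 : x ^ 3 ≤ |x| ^ 3 := by
    rw [← abs_pow]
    exact le_abs_self _
  have h6 : -k ≤ |k| := neg_le_abs k
  rw [sq_abs, hxy]
  linarith

lemma mem {k x y : ℤ} (hk : k ≠ 0) (hxy : y ^ 2 = x ^ 3 - k) (h : ¬ |x| < 32 * |k|) :
    0 < x ∧ x.natAbs ∈ Pool.Agent.V60.Hall.E ∧ 32 * |k| ≤ x := by
  obtain ⟨h1, h2⟩ := Pool.Agent.Results.MP_9d7cd1_nt.PointsInResidueClasses.mem_E (d := -k) (x := x) (y := y)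
    (neg_ne_zero.2 hk) (by rw [hxy]; ring) (by rwa [abs_neg])
  refine ⟨h1, h2, ?_⟩
  rw [abs_of_pos h1] at h
  exact not_lt.1 h

/-- the exceptional ordinates -/
def BadY : Set ℤ := {y | ∃ k x : ℤ, k ≠ 0 ∧ y ^ 2 = x ^ 3 - k ∧ ¬ |x| < 32 * |k|}

lemma same {x k k' y y' : ℤ} (hx : 0 < x) (hk : 32 * |k| ≤ x) (hk' : 32 * |k'| ≤ x) (h : y ^ 2 = x ^ 3 - k)
    (h' : y' ^ 2 = x ^ 3 - k') (hs : 0 ≤ y * y') : y = y' := by
  by_contra hne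
  have b1 : k ≤ |k| := le_abs_self k
  have b2 : -k ≤ |k| := neg_le_abs k
  have b3 : k' ≤ |k'| := le_abs_self k'
  have b4 : -k' ≤ |k'| := neg_le_abs k'
  have hd : 16 * |y ^ 2 - y' ^ 2| ≤ x := by
    rw [h, h']
    rcases abs_cases (x ^ 3 - k - (x ^ 3 - k')) with ⟨e, _⟩ | ⟨e, _⟩ <;> rw [e] <;> linarith
  have h1 : 1 ≤ |y - y'| := Int.one_le_abs (sub_ne_zero.2 hne)
  have h2 : |y| ≤ |y + y'| := sq_le_sq.1 (by nlinarith [sq_nonneg y'])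
  have h3 : |y ^ 2 - y' ^ 2| = |y - y'| * |y + y'| := by
    rw [← abs_mul]
    congr 1
    ring
  have h4 : |y| ≤ |y ^ 2 - y' ^ 2| := by
    rw [h3]
    nlinarith [abs_nonneg (y + y')]
  have h5 : 16 * |y| ≤ x := by linarith
  have h6 : (16 * |y|) ^ 2 ≤ x ^ 2 := pow_le_pow_left₀ (by positivity) h5 2
  rw [mul_pow, sq_abs, h] at h6
  have h7 : x ^ 2 ≤ x ^ 3 := pow_le_pow_right₀ hx (by norm_num)
  have h8 : x ≤ x ^ 2 := le_self_pow₀ hx (by norm_num)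
  nlinarith

theorem count_y (ε : ℝ) (hε : 0 < ε) : ∃ C : ℝ, ∀ X : ℝ, 1 ≤ X → {y : ℤ | y ∈ BadY ∧ |(y : ℝ)| ≤ X}.Finite ∧
    ({y : ℤ | y ∈ BadY ∧ |(y : ℝ)| ≤ X}.ncard : ℝ) ≤ C * X ^ (5 / 9 + ε) := by
  classical
  obtain ⟨C, hC⟩ := Pool.Agent.V60.Hall.count ε hε
  refine ⟨2 * (|C| * 2 ^ (5 / 6 + ε)), fun X hX => ?_⟩
  have hX0 : 0 < X := by linarith
  have hfin : {y : ℤ | y ∈ BadY ∧ |(y : ℝ)| ≤ X}.Finite := by
    refine (Set.finite_Icc (-⌊X⌋) ⌊X⌋).subset ?_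
    rintro y ⟨-, hy⟩
    rw [abs_le] at hy
    constructor
    · have : -y ≤ ⌊X⌋ := Int.le_floor.2 (by push_cast; linarith [hy.1])
      omega
    · exact Int.le_floor.2 hy.2
  refine ⟨hfin, ?_⟩
  obtain ⟨Y, hY⟩ : ∃ Y : ℝ, Y = 2 * X ^ (2 / 3 : ℝ) := ⟨_, rfl⟩
  have hY0 : 1 ≤ X ^ (2 / 3 : ℝ) := Real.one_le_rpow hX (by norm_num)
  have hY1 : 1 ≤ Y := by
    rw [hY]
    linarith
  obtain ⟨g1, g2⟩ := hC Y hY1
  have hex : ∀ y : ℤ, y ∈ BadY → ∃ x k : ℤ, 0 < x ∧ x.natAbs ∈ Pool.Agent.V60.Hall.E ∧ 32 * |k| ≤ x ∧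
      y ^ 2 = x ^ 3 - k := by
    rintro y ⟨k, x, hk, hxy, h⟩
    obtain ⟨h1, h2, h3⟩ := mem hk hxy h
    exact ⟨x, k, h1, h2, h3, hxy⟩
  choose! x k hx0 hxE hk hxy using hex
  obtain ⟨R, hR⟩ : ∃ R : Set (ℕ × Bool), R = {n : ℕ | n ∈ Pool.Agent.V60.Hall.E ∧ (n : ℝ) ≤ Y} ×ˢ Set.univ := ⟨_, rfl⟩
  have hRfin : R.Finite := by
    rw [hR]
    exact g1.prod Set.finite_univ
  have hmap : ∀ y ∈ {y : ℤ | y ∈ BadY ∧ |(y : ℝ)| ≤ X}, ((x y).natAbs, decide (0 ≤ y)) ∈ R := by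
    rintro y ⟨hy, hyX⟩
    rw [hR]
    refine ⟨⟨hxE y hy, ?_⟩, Set.mem_univ _⟩
    have h0 := hx0 y hy
    have h1 : (((x y).natAbs : ℕ) : ℝ) = (x y : ℝ) := by
      rw [Nat.cast_natAbs, abs_of_pos h0]
    simp only
    rw [h1]
    have h2 : (x y) ^ 3 ≤ 8 * y ^ 2 := by
      have e := hxy y hy
      have e1 := hk y hy
      have e2 : k y ≤ |k y| := le_abs_self _
      have e3 : x y ≤ (x y) ^ 3 := le_self_pow₀ h0 (by norm_num)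
      nlinarith
    have h3 : (x y : ℝ) ^ 3 ≤ 8 * (y : ℝ) ^ 2 := by exact_mod_cast h2
    have h4 : (y : ℝ) ^ 2 ≤ X ^ 2 := by
      rw [← sq_abs]
      exact pow_le_pow_left₀ (abs_nonneg _) hyX 2
    have h5 : Y ^ 3 = 8 * X ^ 2 := by
      rw [hY, mul_pow, ← Real.rpow_natCast (X ^ (2 / 3 : ℝ)) 3, ← Real.rpow_mul hX0.le]
      norm_num
    have h6 : (x y : ℝ) ^ 3 ≤ Y ^ 3 := by
      rw [h5]
      linarith
    exact le_of_pow_le_pow_left₀ (by norm_num) (by linarith) h6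
  have hinj : Set.InjOn (fun y : ℤ => ((x y).natAbs, decide (0 ≤ y))) {y : ℤ | y ∈ BadY ∧ |(y : ℝ)| ≤ X} := by
    rintro y ⟨hy, -⟩ y' ⟨hy', -⟩ he
    simp only [Prod.mk.injEq, decide_eq_decide] at he
    obtain ⟨e1, e2⟩ := he
    have h0 := hx0 y hy
    have h0' := hx0 y' hy'
    have e3 : x y = x y' := by omega
    have hs : 0 ≤ y * y' := by
      by_cases hc : 0 ≤ y
      · exact mul_nonneg hc (e2.1 hc)
      · have hc' : ¬ 0 ≤ y' := fun h => hc (e2.2 h)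
        push Not at hc hc'
        exact (mul_pos_of_neg_of_neg hc hc').le
    refine same h0 (hk y hy) (by rw [e3]; exact hk y' hy') (hxy y hy) (by rw [e3]; exact hxy y' hy') hs
  have h1 : {y : ℤ | y ∈ BadY ∧ |(y : ℝ)| ≤ X}.ncard ≤ R.ncard := Set.ncard_le_ncard_of_injOn _ hmap hinj hRfin
  have h2 : R.ncard = {n : ℕ | n ∈ Pool.Agent.V60.Hall.E ∧ (n : ℝ) ≤ Y}.ncard * 2 := by
    rw [hR, Set.ncard_prod]
    simp
  have h3 : ({y : ℤ | y ∈ BadY ∧ |(y : ℝ)| ≤ X}.ncard : ℝ) ≤ 2 * (C * Y ^ (5 / 6 + ε)) := by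
    have h4 : ({y : ℤ | y ∈ BadY ∧ |(y : ℝ)| ≤ X}.ncard : ℝ) ≤ (R.ncard : ℝ) := by exact_mod_cast h1
    rw [h2] at h4
    push_cast at h4
    linarith
  have h5 : Y ^ (5 / 6 + ε) = 2 ^ (5 / 6 + ε) * X ^ (2 / 3 * (5 / 6 + ε)) := by
    rw [hY, Real.mul_rpow (by norm_num) (by positivity), ← Real.rpow_mul hX0.le]
  have h6 : X ^ (2 / 3 * (5 / 6 + ε)) ≤ X ^ (5 / 9 + ε) := Real.rpow_le_rpow_of_exponent_le hX (by linarith)
  calc ({y : ℤ | y ∈ BadY ∧ |(y : ℝ)| ≤ X}.ncard : ℝ) ≤ 2 * (C * Y ^ (5 / 6 + ε)) := h3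
    _ ≤ 2 * (|C| * Y ^ (5 / 6 + ε)) := by
        refine mul_le_mul_of_nonneg_left (mul_le_mul_of_nonneg_right (le_abs_self C) ?_) (by norm_num)
        positivity
    _ = 2 * (|C| * 2 ^ (5 / 6 + ε)) * X ^ (2 / 3 * (5 / 6 + ε)) := by
        rw [h5]
        ring
    _ ≤ 2 * (|C| * 2 ^ (5 / 6 + ε)) * X ^ (5 / 9 + ε) := mul_le_mul_of_nonneg_left h6 (by positivity)

/-- **Theorem.** Let `p` be a prime and `σ > 0`. (1) For all `α ∈ ℤ_p` outside of a set of dimension at most `(5/6) / σ` and all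
large `T`, `|x|³ ≤ 32³ |k|³` and `|y|² ≤ (32³ + 1) |k|³` for ALL integral solutions of `y² = x³ - k`, `k ≠ 0`, with `|x| ≤ T`
and `|x - α|_p ≤ T^{-σ}`. (2) The same for all `β` outside of a set of dimension at most `(5/9) / σ` and all solutions with
`|y| ≤ T` and `|y - β|_p ≤ T^{-σ}`. -/
theorem result (p : ℕ) [Fact p.Prime] (σ : ℝ) (hσ : 0 < σ) :
    (∃ E : Set ℤ_[p], dimH E ≤ ENNReal.ofReal (5 / 6 / σ) ∧ ∀ α : ℤ_[p], α ∉ E → ∃ T₀ : ℝ, ∀ T : ℝ, T₀ ≤ T →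
      ∀ k x y : ℤ, k ≠ 0 → y ^ 2 = x ^ 3 - k → |(x : ℝ)| ≤ T → ‖(x : ℤ_[p]) - α‖ ≤ T ^ (-σ) → Bounds k x y) ∧
    (∃ E : Set ℤ_[p], dimH E ≤ ENNReal.ofReal (5 / 9 / σ) ∧ ∀ β : ℤ_[p], β ∉ E → ∃ T₀ : ℝ, ∀ T : ℝ, T₀ ≤ T →
      ∀ k x y : ℤ, k ≠ 0 → y ^ 2 = x ^ 3 - k → |(y : ℝ)| ≤ T → ‖(y : ℤ_[p]) - β‖ ≤ T ^ (-σ) → Bounds k x y) := by
  constructor
  · obtain ⟨E, h1, h2⟩ := Pool.Agent.V1172.PW.objs p (P := ℕ) (fun n => (n : ℤ)) (ι := Unit)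
      (fun _ => Pool.Agent.V60.Hall.E) (s := 5 / 6) (by norm_num)
      (fun _ ε hε => by
        obtain ⟨C, hC⟩ := Pool.Agent.V60.Hall.count ε hε
        refine ⟨C, fun X hX => ?_⟩
        have e : {t : ℕ | t ∈ Pool.Agent.V60.Hall.E ∧ |(((t : ℤ)) : ℝ)| ≤ X} =
            {n | n ∈ Pool.Agent.V60.Hall.E ∧ (n : ℝ) ≤ X} := by
          ext v
          refine and_congr_right fun _ => ?_
          rw [Int.cast_natCast, Nat.abs_cast]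
        rw [e]
        exact hC X hX) hσ
    refine ⟨E, h1, fun α hα => ?_⟩
    obtain ⟨T₀, hT⟩ := h2 α hα ()
    refine ⟨T₀, fun T hT1 k x y hk hxy hxT hxα => ?_⟩
    refine bounds_of hk hxy ?_
    by_contra hcon
    obtain ⟨m1, m2, -⟩ := mem hk hxy hcon
    have e : ((x.natAbs : ℕ) : ℤ) = x := by omega
    refine hT T hT1 x.natAbs ?_ ?_ m2
    · rw [e]
      exact hxT
    · rw [e]
      exact hxα
  · obtain ⟨E, h1, h2⟩ := Pool.Agent.V1172.PW.objs p (P := ℤ) (fun n => n) (ι := Unit) (fun _ => BadY) (s := 5 / 9)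
      (by norm_num) (fun _ ε hε => count_y ε hε) hσ
    refine ⟨E, h1, fun β hβ => ?_⟩
    obtain ⟨T₀, hT⟩ := h2 β hβ ()
    refine ⟨T₀, fun T hT1 k x y hk hxy hyT hyβ => ?_⟩
    refine bounds_of hk hxy ?_
    by_contra hcon
    exact hT T hT1 y hyT hyβ ⟨k, x, hk, hxy, hcon⟩

end Pool.Agent.Results.MP_ca6ed4_nt.PointsInResidueClasses
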